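import Mathlib

/-!
# Occupancy: the number of shifts which survive a set of large primes

Let `H` be a finite set of shifts `h ≤ U` and `P` a set of primes larger than `U`. The number `S(n)` of `h ∈ H` such
that no prime of `P` divides `n + h` satisfies, for every `u > 0`,
`E u^S ≤ (1 - (1 - u) V)^|H|` with `V = ∏ (1 - 1/p)`: the exponential moments are at most those of a sum of
independent variables. One prime is used at a time (Bernoulli's inequality).
-/

set_option autoImplicit false

namespace Pool.Agent.X29.SW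

open Finset

/-- exactly one solution of a linear congruence -/
lemma one_sol (q m c : ℕ) (hq : 0 < q) (hc : c.Coprime q) :
    ((range q).filter (fun k => (m + c * k) % q = 0)).card = 1 := by
  classical
  have hinj : Set.InjOn (fun k => (m + c * k) % q) (range q : Set ℕ) := by
    intro k hk k' hk' h
    simp only [coe_range, Set.mem_Iio] at hk hk'
    have h1 : m + c * k ≡ m + c * k' [MOD q] := h
    have h2 : c * k ≡ c * k' [MOD q] := Nat.ModEq.add_left_cancel' m h1
    have h3 : k ≡ k' [MOD q] := Nat.ModEq.cancel_left_of_coprime (by rwa [Nat.gcd_comm]) h2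
    exact Nat.ModEq.eq_of_lt_of_lt h3 hk hk'
  have himg : (range q).image (fun k => (m + c * k) % q) = range q := by
    apply eq_of_subset_of_card_le
    · intro x hx
      rw [mem_image] at hx
      obtain ⟨k, -, rfl⟩ := hx
      exact mem_range.2 (Nat.mod_lt _ hq)
    · rw [card_image_of_injOn hinj]
  have h0 : 0 ∈ (range q).image (fun k => (m + c * k) % q) := by
    rw [himg]; exact mem_range.2 hq
  rw [mem_image] at h0
  obtain ⟨k, hk, hk0⟩ := h0
  rw [card_eq_one]
  refine ⟨k, ?_⟩
  ext x
  rw [mem_filter, mem_singleton]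
  constructor
  · rintro ⟨h1, h2⟩
    exact hinj (by simpa using h1) (by simpa using hk) (h2.trans hk0.symm)
  · rintro rfl
    exact ⟨hk, hk0⟩

/-- one prime -/
lemma one_prime (q m c U : ℕ) (hq : 0 < q) (hc : c.Coprime q) (H : Finset ℕ) (hH : H ⊆ Icc 1 U) (hU : U < q)
    (u : ℝ) (hu : 0 < u) :
    ∑ k ∈ range q, u ^ (H.filter (fun h => (m + c * k + h) % q ≠ 0)).card =
      u ^ H.card * (q + H.card * (1 / u - 1)) := by
  classical
  have h1 : ∀ k ∈ range q, u ^ (H.filter (fun h => (m + c * k + h) % q ≠ 0)).card =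
      u ^ H.card * (1 + ((H.filter (fun h => (m + c * k + h) % q = 0)).card : ℝ) * (1 / u - 1)) := by
    intro k _
    have hz : (H.filter (fun h => (m + c * k + h) % q = 0)).card ≤ 1 := by
      rw [card_le_one]
      intro a ha b hb
      rw [mem_filter] at ha hb
      have ha1 := mem_Icc.1 (hH ha.1)
      have hb1 := mem_Icc.1 (hH hb.1)
      have h2 : m + c * k + a ≡ m + c * k + b [MOD q] := ha.2.trans hb.2.symm
      have h3 : a ≡ b [MOD q] := Nat.ModEq.add_left_cancel' _ h2
      exact Nat.ModEq.eq_of_lt_of_lt h3 (by omega) (by omega)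
    have hsum := card_filter_add_card_filter_not (s := H) (fun h => (m + c * k + h) % q = 0)
    rcases Nat.le_one_iff_eq_zero_or_eq_one.1 hz with h0 | h0
    · rw [h0, zero_add] at hsum
      have : (H.filter (fun h => (m + c * k + h) % q ≠ 0)).card = H.card := hsum
      rw [this, h0]
      push_cast
      ring
    · rw [h0] at hsum
      have : H.card = (H.filter (fun h => (m + c * k + h) % q ≠ 0)).card + 1 := by
        rw [← hsum, add_comm]
      rw [h0, this, pow_succ]
      push_cast
      field_simp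
      ring
  rw [sum_congr rfl h1, ← mul_sum, sum_add_distrib, ← sum_mul, sum_const, card_range, nsmul_eq_mul, mul_one]
  congr 2
  have h2 : ∑ k ∈ range q, ((H.filter (fun h => (m + c * k + h) % q = 0)).card : ℝ) = H.card := by
    have h3 : ∑ k ∈ range q, ((H.filter (fun h => (m + c * k + h) % q = 0)).card : ℝ) =
        ∑ h ∈ H, (((range q).filter (fun k => (m + c * k + h) % q = 0)).card : ℝ) := by
      simp only [card_filter]
      push_cast
      exact sum_comm
    rw [h3]
    have h4 : ∀ h ∈ H, (((range q).filter (fun k => (m + c * k + h) % q = 0)).card : ℝ) = 1 := by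
      intro h _
      have h5 := one_sol q (m + h) c hq hc
      have h6 : (range q).filter (fun k => (m + c * k + h) % q = 0) =
          (range q).filter (fun k => (m + h + c * k) % q = 0) := by
        apply filter_congr
        intro k _
        rw [show m + c * k + h = m + h + c * k by ring]
      rw [h6, h5]
      norm_num
    rw [sum_congr rfl h4, sum_const, nsmul_eq_mul, mul_one]
  rw [h2]

lemma sum_split (p L : ℕ) (G : ℕ → ℝ) :
    ∑ j ∈ range (p * L), G j = ∑ i ∈ range p, ∑ j ∈ range L, G (i + p * j) := by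
  induction L with
  | zero => simp
  | succ L ih =>
    rw [Nat.mul_succ, sum_range_add, ih, ← sum_add_distrib]
    apply sum_congr rfl
    intro i _
    rw [sum_range_succ, add_comm (p * L) i]

/-- **exponential moments** -/
theorem moments (P : Finset ℕ) : ∀ (U x A : ℕ) (H : Finset ℕ), H ⊆ Icc 1 U → (∀ p ∈ P, p.Prime ∧ U < p) →
    (∀ p ∈ P, A.Coprime p) → ∀ u : ℝ, 0 < u →
    ∑ j ∈ range (∏ p ∈ P, p), u ^ (H.filter (fun h => ∀ p ∈ P, (x + A * j + h) % p ≠ 0)).card ≤
      ((∏ p ∈ P, p : ℕ) : ℝ) * (1 - (1 - u) * ∏ p ∈ P, (1 - 1 / (p : ℝ))) ^ H.card := by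
  classical
  induction P using Finset.induction_on with
  | empty =>
    intro U x A H _ _ _ u _
    simp
  | insert q P hqP ih =>
    intro U x A H hH hP hA u hu
    rw [prod_insert hqP, prod_insert hqP]
    obtain ⟨D, hD⟩ : ∃ D, D = ∏ p ∈ P, p := ⟨_, rfl⟩
    obtain ⟨V, hV⟩ : ∃ V : ℝ, V = ∏ p ∈ P, (1 - 1 / (p : ℝ)) := ⟨_, rfl⟩
    have hq := hP q (mem_insert_self q P)
    have hq0 : 0 < q := hq.1.pos
    have hqr : (0 : ℝ) < q := by exact_mod_cast hq0
    have hPp : ∀ p ∈ P, p.Prime ∧ U < p := fun p hp => hP p (mem_insert_of_mem hp)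
    have hADq : (A * D).Coprime q := by
      apply Nat.Coprime.mul_left (hA q (mem_insert_self q P))
      rw [hD]
      apply Nat.Coprime.prod_left
      intro p hp
      rw [Nat.coprime_primes (hPp p hp).1 hq.1]
      rintro rfl
      exact hqP hp
    rw [← hD, ← hV, mul_comm q D, sum_split]
    -- the inner sum
    have hin : ∀ i ∈ range D, ∑ k ∈ range q,
        u ^ (H.filter (fun h => ∀ p ∈ insert q P, (x + A * (i + D * k) + h) % p ≠ 0)).card ≤
        q * (1 - (1 - u) * (1 - 1 / q)) ^ (H.filter (fun h => ∀ p ∈ P, (x + A * i + h) % p ≠ 0)).card := by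
      intro i _
      obtain ⟨H', hH'⟩ : ∃ H', H' = H.filter (fun h => ∀ p ∈ P, (x + A * i + h) % p ≠ 0) := ⟨_, rfl⟩
      have e1 : ∀ k ∈ range q, u ^ (H.filter (fun h => ∀ p ∈ insert q P, (x + A * (i + D * k) + h) % p ≠ 0)).card =
          u ^ (H'.filter (fun h => (x + A * i + A * D * k + h) % q ≠ 0)).card := by
        intro k _
        congr 2
        rw [hH', filter_filter]
        apply filter_congr
        intro h _
        have e2 : ∀ p ∈ P, (x + A * (i + D * k) + h) % p = (x + A * i + h) % p := by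
          intro p hp
          obtain ⟨l, hl⟩ : p ∣ D := by rw [hD]; exact dvd_prod_of_mem (fun p : ℕ => p) hp
          have : x + A * (i + D * k) + h = (x + A * i + h) + p * (l * A * k) := by rw [hl]; ring
          rw [this]
          exact Nat.add_mul_mod_self_left _ _ _
        have e3 : x + A * (i + D * k) + h = x + A * i + A * D * k + h := by ring
        constructor
        · intro h1
          refine ⟨fun p hp => ?_, ?_⟩
          · rw [← e2 p hp]; exact h1 p (mem_insert_of_mem hp)
          · rw [← e3]; exact h1 q (mem_insert_self q P)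
        · rintro ⟨h1, h2⟩ p hp
          rcases mem_insert.1 hp with rfl | hp
          · rw [e3]; exact h2
          · rw [e2 p hp]; exact h1 p hp
      rw [sum_congr rfl e1, ← hH', one_prime q (x + A * i) (A * D) U hq0 hADq H'
        (by rw [hH']; exact (filter_subset _ _).trans hH) hq.2 u hu]
      have hb := one_add_mul_le_pow (a := (1 / u - 1) / q) (by
        have h1 : 0 < 1 / u := by positivity
        have h2 : (1 : ℝ) ≤ q := by exact_mod_cast hq0
        rw [le_div_iff₀ hqr]
        nlinarith) H'.card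
      have e4 : 1 - (1 - u) * (1 - 1 / (q : ℝ)) = u * (1 + (1 / u - 1) / q) := by
        field_simp
        ring
      rw [e4, mul_pow]
      have h3 : 0 ≤ (q : ℝ) * u ^ H'.card := by positivity
      have h4 := mul_le_mul_of_nonneg_left hb h3
      calc u ^ H'.card * (q + H'.card * (1 / u - 1)) = q * u ^ H'.card * (1 + H'.card * ((1 / u - 1) / q)) := by
            field_simp
        _ ≤ _ := h4
        _ = _ := by ring
    refine (sum_le_sum hin).trans ?_
    rw [← mul_sum]
    have hfac : 0 < 1 - 1 / (q : ℝ) := by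
      have h2 : (2 : ℝ) ≤ q := by exact_mod_cast hq.1.two_le
      have : 1 / (q : ℝ) ≤ 1 / 2 := one_div_le_one_div_of_le (by norm_num) h2
      linarith
    have hfac1 : 1 - 1 / (q : ℝ) ≤ 1 := by
      have : 0 ≤ 1 / (q : ℝ) := by positivity
      linarith
    have hu' : 0 < 1 - (1 - u) * (1 - 1 / q) := by
      have : (1 - u) * (1 - 1 / (q : ℝ)) < 1 := by
        rcases le_or_gt u 1 with h | h
        · calc (1 - u) * (1 - 1 / (q : ℝ)) ≤ (1 - u) * 1 := mul_le_mul_of_nonneg_left hfac1 (by linarith)
            _ < 1 := by linarith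
        · have : (1 - u) * (1 - 1 / (q : ℝ)) < 0 := mul_neg_of_neg_of_pos (by linarith) hfac
          linarith
      linarith
    have h5 := ih U x A H hH hPp (fun p hp => hA p (mem_insert_of_mem hp)) (1 - (1 - u) * (1 - 1 / q)) hu'
    rw [← hD, ← hV] at h5
    have h6 := mul_le_mul_of_nonneg_left h5 hqr.le
    refine h6.trans (le_of_eq ?_)
    push_cast
    have e5 : 1 - (1 - (1 - (1 - u) * (1 - 1 / (q : ℝ)))) * V = 1 - (1 - u) * ((1 - 1 / (q : ℝ)) * V) := by ring
    rw [e5]
    ring

/-- **the tails** -/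
theorem tails (P : Finset ℕ) (U x A : ℕ) (H : Finset ℕ) (hH : H ⊆ Icc 1 U) (hP : ∀ p ∈ P, p.Prime ∧ U < p)
    (hA : ∀ p ∈ P, A.Coprime p) (δ M : ℝ) (hδ : 0 < δ) (hδ1 : δ ≤ 1)
    (hM : M = H.card * ∏ p ∈ P, (1 - 1 / (p : ℝ))) :
    (((range (∏ p ∈ P, p)).filter (fun j => δ * M <
      |((H.filter (fun h => ∀ p ∈ P, (x + A * j + h) % p ≠ 0)).card : ℝ) - M|)).card : ℝ) ≤
      2 * ((∏ p ∈ P, p : ℕ) : ℝ) * Real.exp (-(δ ^ 2 / 4 * M)) := by
  classical
  obtain ⟨D, hD⟩ : ∃ D, D = ∏ p ∈ P, p := ⟨_, rfl⟩
  obtain ⟨V, hV⟩ : ∃ V : ℝ, V = ∏ p ∈ P, (1 - 1 / (p : ℝ)) := ⟨_, rfl⟩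
  obtain ⟨S, hS⟩ : ∃ S : ℕ → ℕ, S = fun j => (H.filter (fun h => ∀ p ∈ P, (x + A * j + h) % p ≠ 0)).card := ⟨_, rfl⟩
  have hmom : ∀ u : ℝ, 0 < u → ∑ j ∈ range D, u ^ (S j) ≤ D * (1 - (1 - u) * V) ^ H.card := by
    intro u hu
    rw [hD, hV, hS]
    exact moments P U x A H hH hP hA u hu
  have hV0 : 0 ≤ V := by
    rw [hV]
    apply prod_nonneg
    intro p hp
    have h2 : (2 : ℝ) ≤ p := by exact_mod_cast (hP p hp).1.two_le
    have : 1 / (p : ℝ) ≤ 1 / 2 := one_div_le_one_div_of_le (by norm_num) h2
    linarith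
  have hV1 : V ≤ 1 := by
    rw [hV]
    apply prod_le_one
    · intro p hp
      have h2 : (2 : ℝ) ≤ p := by exact_mod_cast (hP p hp).1.two_le
      have : 1 / (p : ℝ) ≤ 1 / 2 := one_div_le_one_div_of_le (by norm_num) h2
      linarith
    · intro p _
      have : 0 ≤ 1 / (p : ℝ) := by positivity
      linarith
  rw [← hV] at hM
  rw [← hD]
  have hM0 : 0 ≤ M := by rw [hM]; positivity
  have hD0 : (0 : ℝ) ≤ D := Nat.cast_nonneg _
  -- the exponential form
  have hexp : ∀ t : ℝ, ∑ j ∈ range D, Real.exp (t * S j) ≤ D * Real.exp ((Real.exp t - 1) * M) := by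
    intro t
    have h1 := hmom (Real.exp t) (Real.exp_pos t)
    have h2 : ∀ j ∈ range D, (Real.exp t) ^ (S j) = Real.exp (t * S j) := by
      intro j _
      rw [← Real.exp_nat_mul, mul_comm]
    rw [sum_congr rfl h2] at h1
    refine h1.trans ?_
    apply mul_le_mul_of_nonneg_left _ hD0
    have h3 : 1 - (1 - Real.exp t) * V ≤ Real.exp ((Real.exp t - 1) * V) := by
      have := Real.add_one_le_exp ((Real.exp t - 1) * V)
      linarith
    have h4 : 0 ≤ 1 - (1 - Real.exp t) * V := by
      have h5 := Real.exp_pos t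
      nlinarith
    calc (1 - (1 - Real.exp t) * V) ^ H.card ≤ (Real.exp ((Real.exp t - 1) * V)) ^ H.card :=
          pow_le_pow_left₀ h4 h3 _
      _ = Real.exp ((Real.exp t - 1) * M) := by
          rw [← Real.exp_nat_mul, hM]
          congr 1
          ring
  have hsplit : (((range D).filter (fun j => δ * M < |(S j : ℝ) - M|)).card : ℝ) ≤
      (((range D).filter (fun j => (1 + δ) * M < S j)).card : ℝ) +
      (((range D).filter (fun j => (S j : ℝ) < (1 - δ) * M)).card : ℝ) := by
    have : (range D).filter (fun j => δ * M < |(S j : ℝ) - M|) ⊆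
        (range D).filter (fun j => (1 + δ) * M < S j) ∪ (range D).filter (fun j => (S j : ℝ) < (1 - δ) * M) := by
      intro j hj
      rw [mem_filter] at hj
      rw [mem_union, mem_filter, mem_filter]
      rcases lt_abs.1 hj.2 with h | h
      · left; exact ⟨hj.1, by linarith⟩
      · right; exact ⟨hj.1, by linarith⟩
    exact_mod_cast (card_le_card this).trans (card_union_le _ _)
  have hS' : (fun j => δ * M < |((H.filter (fun h => ∀ p ∈ P, (x + A * j + h) % p ≠ 0)).card : ℝ) - M|) =
      (fun j => δ * M < |(S j : ℝ) - M|) := by rw [hS]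
  simp only [hS'] at *
  refine hsplit.trans ?_
  have hup : (((range D).filter (fun j => (1 + δ) * M < S j)).card : ℝ) ≤ D * Real.exp (-(δ ^ 2 / 4 * M)) := by
    have h1 := hexp (δ / 2)
    have h2 : (((range D).filter (fun j => (1 + δ) * M < S j)).card : ℝ) * Real.exp (δ / 2 * ((1 + δ) * M)) ≤
        ∑ j ∈ range D, Real.exp (δ / 2 * S j) := by
      rw [card_filter]
      push_cast
      rw [sum_mul]
      apply sum_le_sum
      intro j _
      split_ifs with h
      · rw [one_mul]
        apply Real.exp_le_exp.2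
        exact mul_le_mul_of_nonneg_left h.le (by positivity)
      · rw [zero_mul]; exact (Real.exp_pos _).le
    have h3 : Real.exp (δ / 2) ≤ 1 + δ / 2 + (δ / 2) ^ 2 := by
      have h4 := Real.abs_exp_sub_one_sub_id_le (x := δ / 2) (by rw [abs_of_pos (by positivity)]; linarith)
      have := (abs_le.1 h4).2
      linarith
    have h4 : D * Real.exp ((Real.exp (δ / 2) - 1) * M) ≤
        D * Real.exp (-(δ ^ 2 / 4 * M)) * Real.exp (δ / 2 * ((1 + δ) * M)) := by
      rw [mul_assoc, ← Real.exp_add]
      apply mul_le_mul_of_nonneg_left _ hD0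
      apply Real.exp_le_exp.2
      have h5 := mul_le_mul_of_nonneg_right h3 hM0
      nlinarith
    exact le_of_mul_le_mul_right (h2.trans (h1.trans h4)) (Real.exp_pos _)
  have hlo : (((range D).filter (fun j => (S j : ℝ) < (1 - δ) * M)).card : ℝ) ≤ D * Real.exp (-(δ ^ 2 / 4 * M)) := by
    have h1 := hexp (-(δ / 2))
    have h2 : (((range D).filter (fun j => (S j : ℝ) < (1 - δ) * M)).card : ℝ) *
        Real.exp (-(δ / 2 * ((1 - δ) * M))) ≤ ∑ j ∈ range D, Real.exp (-(δ / 2) * S j) := by
      rw [card_filter]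
      push_cast
      rw [sum_mul]
      apply sum_le_sum
      intro j _
      split_ifs with h
      · rw [one_mul]
        apply Real.exp_le_exp.2
        have := mul_le_mul_of_nonneg_left h.le (show 0 ≤ δ / 2 by positivity)
        linarith
      · rw [zero_mul]; exact (Real.exp_pos _).le
    have h3 : Real.exp (-(δ / 2)) ≤ 1 - δ / 2 + (δ / 2) ^ 2 := by
      have h4 := Real.abs_exp_sub_one_sub_id_le (x := -(δ / 2)) (by
        rw [abs_neg, abs_of_pos (by positivity)]; linarith)
      have := (abs_le.1 h4).2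
      nlinarith
    have h4 : D * Real.exp ((Real.exp (-(δ / 2)) - 1) * M) ≤
        D * Real.exp (-(δ ^ 2 / 4 * M)) * Real.exp (-(δ / 2 * ((1 - δ) * M))) := by
      rw [mul_assoc, ← Real.exp_add]
      apply mul_le_mul_of_nonneg_left _ hD0
      apply Real.exp_le_exp.2
      have h5 := mul_le_mul_of_nonneg_right h3 hM0
      nlinarith
    exact le_of_mul_le_mul_right (h2.trans (h1.trans h4)) (Real.exp_pos _)
  linarith

end Pool.Agent.X29.SW
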