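import Pool.Agent.Y829.RS5
import Pool.Agent.X29.SW.Conc

/-! Sieve weights see the right number of primes in intervals of length `C log X log log X`. The arguments are those
of `Pool.Agent.Y829.RP3`, `RS5` (helper829), for shifted intervals. -/

set_option autoImplicit false

namespace Pool.Agent.X29.SW

open Finset Filter Topology Pool.Agent.Y829 Pool.Agent.Y829.RP
open H343E (pi1)
open Pool.Agent.Y829.RS (VO_V badmass evbig sumss)

/-- the model -/
theorem model (K b : ℕ) : ∃ C0 : ℝ, 1 ≤ C0 ∧ ∃ X0 : ℕ, ∀ X : ℕ, X0 ≤ X → ∀ U Q : ℕ,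
    C0 * (Real.log X * Real.log (Real.log X)) ≤ U → 1 ≤ Q → Q ≤ X →
    ∀ c : ℕ → ℕ → ℝ, (∀ n, 0 ≤ wt Q c n) → ∑ d ∈ Icc 1 Q, ss c d ^ 2 / d ≤ Real.log X ^ K →
    1 / (2 * Real.log X ^ K) ≤ mu Q c →
    |∑ h ∈ Icc 1 U, RP.GG Q c h - U * mu Q c| ≤ 2 * (1 / 2 : ℝ) ^ b * (U * mu Q c) := by
  classical
  obtain ⟨C0, hC0, X1, hX1⟩ := conc b (2 * K + 4 * (K + 2) + 10)
  obtain ⟨X2, hX2⟩ := badmass K (K + 2)
  obtain ⟨cm, hcm, hmert⟩ := mert
  obtain ⟨δ, hδ⟩ : ∃ δ : ℝ, δ = (1 / 2 : ℝ) ^ b := ⟨_, rfl⟩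
  have hδ0 : 0 < δ := by rw [hδ]; positivity
  have E := (log_tend.eventually_ge_atTop (1 + 2 / (δ * cm))).and (eventually_ge_atTop 3)
  obtain ⟨X3, hX3⟩ := E.exists_forall_of_atTop
  refine ⟨C0, hC0, max (max X1 X2) X3, ?_⟩
  intro X hX U Q hU hQ1 hQX c hw hc hmu
  have hc1 := hX1 X ((le_max_left _ _).trans ((le_max_left _ _).trans hX)) U Q hU hQX
  have hc2 := hX2 X ((le_max_right _ _).trans ((le_max_left _ _).trans hX)) Q hQ1 hQX c hc
  obtain ⟨e1, e2⟩ := hX3 X ((le_max_right _ _).trans hX)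
  have hP : ∀ p ∈ PQ Q, p.Prime := fun p hp => (mem_PQ.1 hp).1
  have hVP : cm / Real.log X ≤ V (PQ Q) := hmert X (by omega) (PQ Q) fun p hp => ⟨hP p hp, (mem_PQ.1 hp).2.trans hQX⟩
  have hV0 : 0 < V (PQ Q) := V_pos hP
  obtain ⟨L, hL⟩ : ∃ L : ℝ, L = Real.log X := ⟨_, rfl⟩
  rw [← hL] at hc1 hc2 hc e1 hmu hVP
  have hL1 : 1 ≤ L := by
    have : 0 ≤ 2 / (δ * cm) := by positivity
    linarith
  have hL0 : 0 < L := by linarith
  obtain ⟨M, hM⟩ : ∃ M, M = ∏ p ∈ PQ Q, p := ⟨_, rfl⟩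
  have hM0 : 0 < M := by rw [hM]; exact prod_pos fun p hp => (hP p hp).pos
  obtain ⟨N, hN⟩ : ∃ N, N = Q.factorial := ⟨_, rfl⟩
  have hN0 : 0 < N := by rw [hN]; exact Nat.factorial_pos _
  have hdN : ∀ d ∈ Icc 1 Q, d ∣ N := by rw [hN]; exact dvdfac Q
  have hMN : M ∣ N := by
    rw [hM]
    apply Finset.prod_primes_dvd
    · intro p hp; exact (hP p hp).prime
    · intro p hp
      exact hdN p (mem_Icc.2 ⟨(hP p hp).one_lt.le, (mem_PQ.1 hp).2⟩)
  obtain ⟨k, hk⟩ := hMN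
  rw [← hM] at hc1
  obtain ⟨bad, hbad⟩ : ∃ bad : ℕ → Prop, bad = fun n => δ * (U * V (PQ Q)) <
      |SO (fun _ => {0}) (PQ Q) U n - U * V (PQ Q)| := ⟨_, rfl⟩
  have hc1' : (((range M).filter bad).card : ℝ) * L ^ (2 * K + 4 * (K + 2) + 10) ≤ M := by
    rw [hbad, hδ]
    convert hc1
  -- the bad set has density at most `L^(-C)`
  have hper : ∀ n, (if bad (n + M) then (1 : ℝ) else 0) = if bad n then (1 : ℝ) else 0 := by
    intro n
    have h1 : bad (n + M) ↔ bad n := by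
      rw [hbad]
      show (δ * (U * V (PQ Q)) < |SO (fun _ => {0}) (PQ Q) U (n + M) - U * V (PQ Q)|) ↔
        (δ * (U * V (PQ Q)) < |SO (fun _ => {0}) (PQ Q) U n - U * V (PQ Q)|)
      rw [SO_per (fun _ => {0}) (PQ Q) U M n (fun p hp => by
        rw [hM]; exact dvd_prod_of_mem (fun p : ℕ => p) hp)]
    simp only [h1]
  have hcount : (((range N).filter bad).card : ℝ) * L ^ (2 * K + 4 * (K + 2) + 10) ≤ N := by
    have h1 : (((range N).filter bad).card : ℝ) = k * (((range M).filter bad).card : ℝ) := by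
      rw [card_filter, card_filter, hk]
      push_cast
      exact per_sum hper k
    rw [h1, hk]
    push_cast
    have := mul_le_mul_of_nonneg_left hc1' (Nat.cast_nonneg (α := ℝ) k)
    linarith
  have hb := hc2 N hdN ((range N).filter bad) (filter_subset _ _) hcount
  have hb' : ∑ n ∈ (range N).filter bad, |wt Q c n| = ∑ n ∈ (range N).filter bad, wt Q c n :=
    sum_congr rfl fun n _ => abs_of_nonneg (hw n)
  rw [hb'] at hb
  -- the weighted sum
  have hsw := sum_wt Q N c hdN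
  have hUr : (0 : ℝ) ≤ U := Nat.cast_nonneg _
  have hNr : (0 : ℝ) < N := by exact_mod_cast hN0
  have hmu0 : 0 < mu Q c := lt_of_lt_of_le (by positivity) hmu
  have h1 : |∑ n ∈ range N, wt Q c n * SO (fun _ => {0}) (PQ Q) U n - U * V (PQ Q) * ∑ n ∈ range N, wt Q c n| ≤
      2 * δ * (U * V (PQ Q)) * (N * mu Q c) := by
    have h2 : ∑ n ∈ range N, wt Q c n * SO (fun _ => {0}) (PQ Q) U n - U * V (PQ Q) * ∑ n ∈ range N, wt Q c n =
        ∑ n ∈ range N, wt Q c n * (SO (fun _ => {0}) (PQ Q) U n - U * V (PQ Q)) := by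
      rw [mul_sum, ← sum_sub_distrib]
      apply sum_congr rfl
      intro n _
      ring
    rw [h2]
    refine (abs_sum_le_sum_abs _ _).trans ?_
    have h3 : ∀ n ∈ range N, |wt Q c n * (SO (fun _ => {0}) (PQ Q) U n - U * V (PQ Q))| ≤
        wt Q c n * (δ * (U * V (PQ Q))) + (if bad n then wt Q c n * U else 0) := by
      intro n _
      rw [abs_mul, abs_of_nonneg (hw n)]
      by_cases hbn : bad n
      · rw [if_pos hbn]
        have h4 : |SO (fun _ => {0}) (PQ Q) U n - U * V (PQ Q)| ≤ U := by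
          have a1 := SO_le (fun _ => {0}) (PQ Q) U n
          have a2 := SO_nonneg (fun _ => {0}) (PQ Q) U n
          have a3 : U * V (PQ Q) ≤ U * 1 := mul_le_mul_of_nonneg_left (by
            have := VO_le_one (Om := fun _ => ({0} : Finset ℕ)) hP (fun p hp => by simpa using (hP p hp).one_lt)
            rwa [VO_V] at this) hUr
          have a4 : 0 ≤ U * V (PQ Q) := by positivity
          rw [abs_le]
          constructor <;> linarith
        have h5 := mul_le_mul_of_nonneg_left h4 (hw n)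
        have h6 : 0 ≤ wt Q c n * (δ * (U * V (PQ Q))) := by
          have := hw n
          positivity
        linarith
      · rw [if_neg hbn, add_zero]
        apply mul_le_mul_of_nonneg_left _ (hw n)
        rw [hbad] at hbn
        exact not_lt.1 hbn
    refine (sum_le_sum h3).trans ?_
    rw [sum_add_distrib, ← sum_mul, hsw, ← sum_filter, ← sum_mul]
    have h4 : (∑ n ∈ (range N).filter bad, wt Q c n) * U ≤ δ * (U * V (PQ Q)) * (N * mu Q c) := by
      have h5 : (∑ n ∈ (range N).filter bad, wt Q c n) ≤ N / L ^ (K + 2) := by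
        rw [le_div_iff₀ (by positivity)]
        exact hb
      have h6 : (N : ℝ) / L ^ (K + 2) ≤ δ * V (PQ Q) * (N * mu Q c) := by
        have h7 : δ * (cm / L) * (N * (1 / (2 * L ^ K))) ≤ δ * V (PQ Q) * (N * mu Q c) := by
          apply mul_le_mul
          · exact mul_le_mul_of_nonneg_left hVP hδ0.le
          · exact mul_le_mul_of_nonneg_left hmu hNr.le
          · positivity
          · positivity
        refine le_trans ?_ h7
        have h8 : δ * (cm / L) * (N * (1 / (2 * L ^ K))) = (N / L ^ (K + 2)) * (δ * cm * L / 2) := by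
          rw [pow_add]
          field_simp
        rw [h8]
        have h9 : 1 ≤ δ * cm * L / 2 := by
          have h10 : 2 / (δ * cm) ≤ L := by linarith
          rw [div_le_iff₀ (by positivity)] at h10
          linarith
        exact le_mul_of_one_le_right (by positivity) h9
      have h7 := mul_le_mul_of_nonneg_right (h5.trans h6) hUr
      refine h7.trans (le_of_eq ?_)
      ring
    linarith
  rw [sum_GG Q U N c hN0 hdN, hsw] at h1
  have hNV : 0 < (N : ℝ) * V (PQ Q) := by positivity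
  have h2 : N * V (PQ Q) * |∑ h ∈ Icc 1 U, RP.GG Q c h - U * mu Q c| ≤ N * V (PQ Q) * (2 * δ * (U * mu Q c)) := by
    have e3 : N * V (PQ Q) * |∑ h ∈ Icc 1 U, RP.GG Q c h - U * mu Q c| =
        |N * V (PQ Q) * ∑ h ∈ Icc 1 U, RP.GG Q c h - U * V (PQ Q) * (N * mu Q c)| := by
      have e4 : N * V (PQ Q) * ∑ h ∈ Icc 1 U, RP.GG Q c h - U * V (PQ Q) * (N * mu Q c) =
          (N * V (PQ Q)) * (∑ h ∈ Icc 1 U, RP.GG Q c h - U * mu Q c) := by ring
      rw [e4, abs_mul, abs_of_pos hNV]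
    rw [e3]
    refine h1.trans (le_of_eq ?_)
    ring
  rw [← hδ]
  exact le_of_mul_le_mul_left h2 hNV


/-- the shifted coefficients -/
def shc (H : ℕ) (c : ℕ → ℕ → ℝ) (d a : ℕ) : ℝ := c d ((a + (d - H % d)) % d)

lemma shc_mod (H : ℕ) (c : ℕ → ℕ → ℝ) (d a : ℕ) (hd : 0 < d) (ha : a < d) :
    shc H c d ((a + H) % d) = c d a := by
  unfold shc
  congr 1
  have h1 : (a + H) % d + (d - H % d) ≡ a [MOD d] := by
    have h2 : (a + H) % d ≡ a + H [MOD d] := Nat.mod_modEq _ _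
    have h3 : H + (d - H % d) ≡ 0 [MOD d] := by
      have h4 : H % d < d := Nat.mod_lt _ hd
      have h5 : H + (d - H % d) = d * (H / d) + d := by
        have := Nat.mod_add_div H d
        omega
      rw [h5, Nat.modEq_zero_iff_dvd]
      exact dvd_add (dvd_mul_right _ _) dvd_rfl
    calc (a + H) % d + (d - H % d) ≡ a + H + (d - H % d) [MOD d] := h2.add_right _
      _ = a + (H + (d - H % d)) := by ring
      _ ≡ a + 0 [MOD d] := h3.add_left _
      _ = a := by ring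
  have h2 : ((a + H) % d + (d - H % d)) % d = a % d := h1
  rw [h2, Nat.mod_eq_of_lt ha]

/-- a sum over the residues, shifted -/
lemma sum_shift (H d : ℕ) (hd : 0 < d) (f : ℕ → ℝ) :
    ∑ a ∈ range d, f ((a + H) % d) = ∑ a ∈ range d, f a := by
  classical
  have hinj : Set.InjOn (fun a => (a + H) % d) (range d : Set ℕ) := by
    intro k hk k' hk' h
    simp only [coe_range, Set.mem_Iio] at hk hk'
    have h1 : k + H ≡ k' + H [MOD d] := h
    have h2 : k ≡ k' [MOD d] := Nat.ModEq.add_right_cancel' H h1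
    exact Nat.ModEq.eq_of_lt_of_lt h2 hk hk'
  have himg : (range d).image (fun a => (a + H) % d) = range d := by
    apply eq_of_subset_of_card_le
    · intro x hx
      rw [mem_image] at hx
      obtain ⟨k, -, rfl⟩ := hx
      exact mem_range.2 (Nat.mod_lt _ hd)
    · rw [card_image_of_injOn hinj]
  conv_rhs => rw [← himg]
  rw [sum_image hinj]

lemma ss_shc (H : ℕ) (c : ℕ → ℕ → ℝ) (d : ℕ) : ss (shc H c) d = ss c d := by
  unfold ss
  rcases Nat.eq_zero_or_pos d with rfl | hd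
  · simp
  · rw [← sum_shift H d hd (fun a => |shc H c d a|)]
    apply sum_congr rfl
    intro a ha
    rw [shc_mod H c d a hd (mem_range.1 ha)]

lemma mu_shc (Q H : ℕ) (c : ℕ → ℕ → ℝ) : mu Q (shc H c) = mu Q c := by
  unfold mu
  apply sum_congr rfl
  intro d hd
  have hd0 : 0 < d := (mem_Icc.1 hd).1
  rw [← sum_shift H d hd0 (fun a => shc H c d a / (d : ℝ))]
  apply sum_congr rfl
  intro a ha
  rw [shc_mod H c d a hd0 (mem_range.1 ha)]

lemma wt_shc (Q H n : ℕ) (c : ℕ → ℕ → ℝ) : wt Q (shc H c) (n + H) = wt Q c n := by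
  unfold wt
  apply sum_congr rfl
  intro d hd
  have hd0 : 0 < d := (mem_Icc.1 hd).1
  rw [← shc_mod H c d (n % d) hd0 (Nat.mod_lt _ hd0)]
  rw [Nat.mod_add_mod]

lemma wt_shc_nonneg (Q H : ℕ) (c : ℕ → ℕ → ℝ) (hw : ∀ n, 0 ≤ wt Q c n) (n : ℕ) : 0 ≤ wt Q (shc H c) n := by
  have h1 : wt Q (shc H c) n = wt Q (shc H c) (n + Q.factorial * H) := by
    unfold wt
    apply sum_congr rfl
    intro d hd
    obtain ⟨k, hk⟩ := dvdfac Q d hd
    rw [hk, mul_assoc, Nat.add_mul_mod_self_left]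
  have h2 : H ≤ Q.factorial * H := Nat.le_mul_of_pos_left H (Nat.factorial_pos _)
  have h3 : n + Q.factorial * H = (n + (Q.factorial * H - H)) + H := by omega
  rw [h1, h3, wt_shc]
  exact hw _


lemma GG_shc (Q H h : ℕ) (c : ℕ → ℕ → ℝ) : RP.GG Q (shc H c) h = RP.GG Q c (H + h) := by
  unfold RP.GG
  apply sum_congr rfl
  intro d hd
  have hd0 : 0 < d := (mem_Icc.1 hd).1
  rw [← sum_shift H d hd0 (fun a => if (a + h).Coprime d then shc H c d a / (Nat.totient d : ℝ) else 0)]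
  apply sum_congr rfl
  intro a ha
  have h1 : ((a + H) % d + h).Coprime d ↔ (a + (H + h)).Coprime d := by
    have h2 : ((a + H) % d + h) ≡ (a + (H + h)) [MOD d] := by
      calc (a + H) % d + h ≡ a + H + h [MOD d] := (Nat.mod_modEq _ _).add_right _
        _ = a + (H + h) := by ring
    unfold Nat.Coprime
    rw [Nat.ModEq.gcd_eq h2]
  simp only [shc_mod H c d a hd0 (mem_range.1 ha), h1]

/-- the model with a shift -/
theorem model_shift (K b : ℕ) : ∃ C0 : ℝ, 1 ≤ C0 ∧ ∃ X0 : ℕ, ∀ X : ℕ, X0 ≤ X → ∀ H U Q : ℕ,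
    C0 * (Real.log X * Real.log (Real.log X)) ≤ U → 1 ≤ Q → Q ≤ X →
    ∀ c : ℕ → ℕ → ℝ, (∀ n, 0 ≤ wt Q c n) → ∑ d ∈ Icc 1 Q, ss c d ^ 2 / d ≤ Real.log X ^ K →
    1 / (2 * Real.log X ^ K) ≤ mu Q c →
    |∑ h ∈ Icc 1 U, RP.GG Q c (H + h) - U * mu Q c| ≤ 2 * (1 / 2 : ℝ) ^ b * (U * mu Q c) := by
  obtain ⟨C0, hC0, X0, h⟩ := model K b
  refine ⟨C0, hC0, X0, ?_⟩
  intro X hX H U Q hU hQ1 hQX c hw hc hmu
  have h1 := h X hX U Q hU hQ1 hQX (shc H c) (wt_shc_nonneg Q H c hw) (by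
    simp only [ss_shc]; exact hc) (by rw [mu_shc]; exact hmu)
  rw [mu_shc] at h1
  simp only [GG_shc] at h1
  exact h1

/-- the reduction to the mean value of the singular series -/
theorem reduc (K : ℕ) (eta : ℝ) (he : 0 < eta) (he1 : eta ≤ 1) : ∃ B X0 : ℕ, ∀ X : ℕ, X0 ≤ X → ∀ H U Q : ℕ,
    H + U ≤ X → 1 ≤ Q → (Q : ℝ) ^ 2 * Real.log X ^ B ≤ X →
    ∀ c : ℕ → ℕ → ℝ, (∀ n, 0 ≤ wt Q c n) → ∑ d ∈ Icc 1 Q, ss c d ^ 2 / d ≤ Real.log X ^ K →
    X / Real.log X ^ K ≤ ∑ n ∈ Ioc X (2 * X), wt Q c n →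
    (∀ al : ℝ, 0 ≤ al → al * (U * mu Q c) ≤ ∑ h ∈ Icc 1 U, GG Q c (H + h) →
      ((1 - eta) ^ 2 * al - eta) * (U / Real.log X * ∑ n ∈ Ioc X (2 * X), wt Q c n) ≤
        ∑ n ∈ Ioc X (2 * X), wt Q c n * pw U (n + H)) ∧
    (∀ be : ℝ, 0 ≤ be → ∑ h ∈ Icc 1 U, GG Q c (H + h) ≤ be * (U * mu Q c) →
      ∑ n ∈ Ioc X (2 * X), wt Q c n * pw U (n + H) ≤
        ((1 + eta) ^ 2 * be + eta) * (U / Real.log X * ∑ n ∈ Ioc X (2 * X), wt Q c n)) := by
  classical
  obtain ⟨B, X0, hsh⟩ := shift_pr K (K + 2)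
  obtain ⟨X1, hdy⟩ := dyadic eta he he1
  obtain ⟨X2, hX2⟩ := (log_tend.eventually_ge_atTop (2 / eta + 1)).exists_forall_of_atTop
  refine ⟨B + 2 * K + 1, max (max X0 X1) (max X2 3), ?_⟩
  intro X hX H U Q hUX hQ hQX c hw hc hW
  have hX0' : X0 ≤ X := (le_max_left _ _).trans ((le_max_left _ _).trans hX)
  have hX1' : X1 ≤ X := (le_max_right _ _).trans ((le_max_left _ _).trans hX)
  have hX3 : 3 ≤ X := (le_max_right _ _).trans ((le_max_right _ _).trans hX)
  have hL := hX2 X ((le_max_left _ _).trans ((le_max_right _ _).trans hX))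
  set L := Real.log (X : ℝ) with hLd
  set W : ℝ := ∑ n ∈ Ioc X (2 * X), wt Q c n with hWd
  have hXr : (0 : ℝ) < X := by exact_mod_cast (by omega : 0 < X)
  have hdiv : 0 < 2 / eta := by positivity
  have hL1 : 1 ≤ L := by linarith
  have hL0 : 0 < L := by linarith
  have hLe : 2 ≤ eta * L := by
    have h1 : 2 / eta ≤ L := by linarith
    rw [div_le_iff₀ he] at h1
    linarith
  have hQr : (1 : ℝ) ≤ Q := by exact_mod_cast hQ
  have hW0 : 0 ≤ W := sum_nonneg fun n _ => hw n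
  have hUr : (0 : ℝ) ≤ U := Nat.cast_nonneg _
  have hQX' : (Q : ℝ) ^ 2 * L ^ B ≤ X := by
    refine le_trans ?_ hQX
    apply mul_le_mul_of_nonneg_left _ (by positivity)
    exact pow_le_pow_right₀ hL1 (by omega)
  -- the mean value
  have hss : ∑ d ∈ Icc 1 Q, ss c d ≤ eta * W := by
    have h1 : ∀ d ∈ Icc 1 Q, ss c d ≤ (1 / 2) * (Q * (ss c d ^ 2 / d)) + (1 / 2) := by
      intro d hd
      rw [mem_Icc] at hd
      have hd0 : (0 : ℝ) < d := by exact_mod_cast (by omega : 0 < d)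
      have hdQ : (d : ℝ) ≤ Q := by exact_mod_cast hd.2
      have h2 : ss c d ^ 2 ≤ Q * (ss c d ^ 2 / d) := by
        rw [mul_div_assoc', le_div_iff₀ hd0, mul_comm]
        exact mul_le_mul_of_nonneg_right hdQ (sq_nonneg _)
      nlinarith [sq_nonneg (ss c d - 1)]
    have h2 : ∑ d ∈ Icc 1 Q, ss c d ≤ Q * L ^ K := by
      refine (sum_le_sum h1).trans ?_
      rw [sum_add_distrib, ← mul_sum, ← mul_sum, sum_const, Nat.card_Icc, Nat.add_sub_cancel, nsmul_eq_mul]
      have h3 := mul_le_mul_of_nonneg_left hc (show (0 : ℝ) ≤ Q by linarith)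
      have h4 : (Q : ℝ) ≤ Q * L ^ K := by
        have : (1 : ℝ) ≤ L ^ K := one_le_pow₀ hL1
        nlinarith
      linarith
    refine h2.trans ?_
    have h5 : (Q : ℝ) * L ^ K ≤ eta * (X / L ^ K) := by
      rw [mul_div_assoc', le_div_iff₀ (by positivity)]
      have h6 : (Q : ℝ) * L ^ K * L ^ K * L ≤ X := by
        calc (Q : ℝ) * L ^ K * L ^ K * L = Q * L ^ (2 * K + 1) := by ring
          _ ≤ (Q : ℝ) ^ 2 * L ^ (B + 2 * K + 1) := by
              apply mul_le_mul (by nlinarith) _ (by positivity) (by positivity)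
              exact pow_le_pow_right₀ hL1 (by omega)
          _ ≤ X := hQX
      have h7 : (Q : ℝ) * L ^ K * L ^ K * 1 ≤ (Q : ℝ) * L ^ K * L ^ K * (eta * L) := by
        apply mul_le_mul_of_nonneg_left (by linarith) (by positivity)
      calc (Q : ℝ) * L ^ K * L ^ K ≤ eta * ((Q : ℝ) * L ^ K * L ^ K * L) := by linarith
        _ ≤ eta * X := mul_le_mul_of_nonneg_left h6 he.le
    exact h5.trans (mul_le_mul_of_nonneg_left hW he.le)
  have hmean := (abs_le.1 ((sum_dy Q X c).trans hss))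
  rw [← hWd] at hmean
  -- the decomposition
  have hT : |∑ n ∈ Ioc X (2 * X), wt Q c n * pw U (n + H) - ∑ h ∈ Icc 1 U, (pi1 (2 * X + (H + h)) - pi1 (X + (H + h))) * GG Q c (H + h)| ≤
      eta * (U / L * W) := by
    have h1 : ∑ n ∈ Ioc X (2 * X), wt Q c n * pw U (n + H) =
        ∑ h ∈ Icc 1 U, ∑ n ∈ Ioc X (2 * X), wt Q c n * (if (n + (H + h)).Prime then 1 else 0) := by
      rw [sum_comm]
      apply sum_congr rfl
      intro n _
      rw [pw_eq, mul_sum]
      apply sum_congr rfl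
      intro h _
      rw [add_assoc]
    rw [h1, ← sum_sub_distrib]
    refine (abs_sum_le_sum_abs _ _).trans ?_
    have h2 : ∀ h ∈ Icc 1 U, |∑ n ∈ Ioc X (2 * X), wt Q c n * (if (n + (H + h)).Prime then 1 else 0) -
        (pi1 (2 * X + (H + h)) - pi1 (X + (H + h))) * GG Q c (H + h)| ≤ 2 * (X / L ^ (K + 2)) := by
      intro h hh
      have hh2 := (mem_Icc.1 hh).2
      exact hsh X hX0' Q hQ hQX' c hc (H + h) (by omega)
    refine (sum_le_sum h2).trans ?_
    rw [sum_const, Nat.card_Icc, Nat.add_sub_cancel, nsmul_eq_mul]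
    have h3 : 2 * (X / L ^ (K + 2)) ≤ eta * (1 / L * W) := by
      have h4 : 2 * (X / L ^ (K + 2)) = (2 / L) * (1 / L * (X / L ^ K)) := by
        rw [pow_add]
        field_simp
      rw [h4]
      have h5 : 2 / L ≤ eta := by rw [div_le_iff₀ hL0]; exact hLe
      apply mul_le_mul h5 _ (by positivity) he.le
      exact mul_le_mul_of_nonneg_left hW (by positivity)
    calc (U : ℝ) * (2 * (X / L ^ (K + 2))) ≤ U * (eta * (1 / L * W)) := mul_le_mul_of_nonneg_left h3 hUr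
      _ = _ := by ring
  have hT' := abs_le.1 hT
  have hGG : ∀ h, 0 ≤ GG Q c h := fun h => GG_nonneg Q h c hw
  have hlow : (1 - eta) * (X / L) * ∑ h ∈ Icc 1 U, GG Q c (H + h) ≤
      ∑ h ∈ Icc 1 U, (pi1 (2 * X + (H + h)) - pi1 (X + (H + h))) * GG Q c (H + h) := by
    rw [mul_sum]
    apply sum_le_sum
    intro h hh
    have hh2 := (mem_Icc.1 hh).2
    exact mul_le_mul_of_nonneg_right (hdy X hX1' (H + h) (by omega)).1 (hGG (H + h))
  have hupp : ∑ h ∈ Icc 1 U, (pi1 (2 * X + (H + h)) - pi1 (X + (H + h))) * GG Q c (H + h) ≤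
      (1 + eta) * (X / L) * ∑ h ∈ Icc 1 U, GG Q c (H + h) := by
    rw [mul_sum]
    apply sum_le_sum
    intro h hh
    have hh2 := (mem_Icc.1 hh).2
    exact mul_le_mul_of_nonneg_right (hdy X hX1' (H + h) (by omega)).2 (hGG (H + h))
  refine ⟨?_, ?_⟩
  · intro al hal hG
    have h1 : (1 - eta) * (X / L) * (al * (U * mu Q c)) ≤ (1 - eta) * (X / L) * ∑ h ∈ Icc 1 U, GG Q c (H + h) := by
      apply mul_le_mul_of_nonneg_left hG
      apply mul_nonneg (by linarith) (by positivity)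
    have h2 : (1 - eta) ^ 2 * al * (U / L * W) ≤ (1 - eta) * (X / L) * (al * (U * mu Q c)) := by
      have h3 : (1 - eta) * W ≤ X * mu Q c := by linarith [hmean.2]
      have h4 : 0 ≤ (1 - eta) * al * (U / L) := by
        apply mul_nonneg (mul_nonneg (by linarith) hal) (by positivity)
      have h5 := mul_le_mul_of_nonneg_left h3 h4
      calc (1 - eta) ^ 2 * al * (U / L * W) = (1 - eta) * al * (U / L) * ((1 - eta) * W) := by ring
        _ ≤ _ := h5
        _ = _ := by ring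
    have e1 : ((1 - eta) ^ 2 * al - eta) * (U / L * W) = (1 - eta) ^ 2 * al * (U / L * W) - eta * (U / L * W) := by ring
    rw [e1]
    linarith [hT'.1]
  · intro be hbe hG
    have h1 : (1 + eta) * (X / L) * ∑ h ∈ Icc 1 U, GG Q c (H + h) ≤ (1 + eta) * (X / L) * (be * (U * mu Q c)) := by
      apply mul_le_mul_of_nonneg_left hG
      positivity
    have h2 : (1 + eta) * (X / L) * (be * (U * mu Q c)) ≤ (1 + eta) ^ 2 * be * (U / L * W) := by
      have h3 : X * mu Q c ≤ (1 + eta) * W := by linarith [hmean.1]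
      have h4 : 0 ≤ (1 + eta) * be * (U / L) := by positivity
      have h5 := mul_le_mul_of_nonneg_left h3 h4
      calc (1 + eta) * (X / L) * (be * (U * mu Q c)) = (1 + eta) * be * (U / L) * (X * mu Q c) := by ring
        _ ≤ _ := h5
        _ = _ := by ring
    have e1 : ((1 + eta) ^ 2 * be + eta) * (U / L * W) = (1 + eta) ^ 2 * be * (U / L * W) + eta * (U / L * W) := by ring
    rw [e1]
    linarith [hT'.2]

/-- **Intervals of length `C log X log log X`** -/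
theorem main_all (K b : ℕ) : ∃ C0 : ℝ, 1 ≤ C0 ∧ ∃ B X0 : ℕ, ∀ X H U Q : ℕ, X0 ≤ X →
    C0 * (Real.log X * Real.log (Real.log X)) ≤ U → H + U ≤ X → 1 ≤ Q → (Q : ℝ) ^ 2 * Real.log X ^ B ≤ X →
    ∀ c : ℕ → ℕ → ℝ, (∀ n, 0 ≤ wt Q c n) → ∑ d ∈ Icc 1 Q, ss c d ^ 2 / d ≤ Real.log X ^ K →
    X / Real.log X ^ K ≤ ∑ n ∈ Ioc X (2 * X), wt Q c n →
      |∑ n ∈ Ioc X (2 * X), wt Q c n * pw U (n + H) - U / Real.log X * ∑ n ∈ Ioc X (2 * X), wt Q c n| ≤
        (1 / 2 : ℝ) ^ b * (U / Real.log X * ∑ n ∈ Ioc X (2 * X), wt Q c n) := by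
  classical
  obtain ⟨x, hx⟩ : ∃ x : ℝ, x = (1 / 2 : ℝ) ^ (b + 2) := ⟨_, rfl⟩
  have hx0 : 0 < x := by rw [hx]; positivity
  have hxb : (1 / 2 : ℝ) ^ b = 4 * x := by rw [hx, pow_add]; norm_num; ring
  have hx1 : x ≤ 1 / 4 := by
    have : (1 / 2 : ℝ) ^ b ≤ 1 := pow_le_one₀ (by norm_num) (by norm_num)
    linarith
  obtain ⟨B, X0, hred⟩ := reduc K (x / 8) (by positivity) (by linarith)
  obtain ⟨C0, hC0, X1, hX1⟩ := model_shift K (b + 3)
  have E := (log_tend.eventually_ge_atTop (1 : ℝ)).and ((evbig K).and (eventually_ge_atTop 3))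
  obtain ⟨X2, hX2⟩ := E.exists_forall_of_atTop
  refine ⟨C0, hC0, max B K, max (max X0 X1) X2, ?_⟩
  intro X H U Q hX hU hUX hQ hQX c hw hc hW
  obtain ⟨e1, e2, e3⟩ := hX2 X ((le_max_right _ _).trans hX)
  have hX0' : X0 ≤ X := (le_max_left _ _).trans ((le_max_left _ _).trans hX)
  have hX1' : X1 ≤ X := (le_max_right _ _).trans ((le_max_left _ _).trans hX)
  obtain ⟨L, hL⟩ : ∃ L : ℝ, L = Real.log X := ⟨_, rfl⟩
  have hXr : (0 : ℝ) < X := by exact_mod_cast (by omega : 0 < X)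
  have hQr : (1 : ℝ) ≤ Q := by exact_mod_cast hQ
  have hQX2 : (Q : ℝ) ^ 2 * Real.log X ^ B ≤ X := by
    refine le_trans ?_ hQX
    apply mul_le_mul_of_nonneg_left _ (by positivity)
    exact pow_le_pow_right₀ e1 (le_max_left _ _)
  have hQX3 : (Q : ℝ) ^ 2 * Real.log X ^ K ≤ X := by
    refine le_trans ?_ hQX
    apply mul_le_mul_of_nonneg_left _ (by positivity)
    exact pow_le_pow_right₀ e1 (le_max_right _ _)
  have hQX4 : Q ≤ X := by
    have h1 : (1 : ℝ) ≤ Real.log X ^ K := one_le_pow₀ e1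
    have h2 : (Q : ℝ) ≤ X := by nlinarith
    exact_mod_cast h2
  obtain ⟨hr1, hr2⟩ := hred X hX0' H U Q hUX hQ hQX2 c hw hc hW
  -- the mean of the weight
  have hmu : 1 / (2 * Real.log X ^ K) ≤ mu Q c := by
    have h1 := sum_dy Q X c
    have h2 : ∑ d ∈ Icc 1 Q, ss c d ≤ X / (2 * Real.log X ^ K) := by
      apply abs_le_of_sq_le_sq' _ (by positivity) |>.2
      refine (sumss Q c).trans ?_
      have h3 : (∑ d ∈ Icc 1 Q, ss c d ^ 2 / (d : ℝ)) * (Q : ℝ) ^ 2 ≤ X := by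
        have h4 := mul_le_mul_of_nonneg_right hc (sq_nonneg (Q : ℝ))
        linarith
      refine h3.trans ?_
      rw [div_pow, le_div_iff₀ (by positivity)]
      have h5 : (2 * Real.log X ^ K) ^ 2 = 4 * Real.log X ^ (2 * K) := by
        rw [mul_pow, ← pow_mul]
        norm_num
        ring
      rw [h5, sq]
      exact mul_le_mul_of_nonneg_left e2 hXr.le
    have h3 := (abs_le.1 h1).2
    have h4 : (X : ℝ) / Real.log X ^ K - X / (2 * Real.log X ^ K) ≤ X * mu Q c := by linarith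
    have h5 : (X : ℝ) / Real.log X ^ K - X / (2 * Real.log X ^ K) = X * (1 / (2 * Real.log X ^ K)) := by
      have : (0 : ℝ) < Real.log X ^ K := by positivity
      field_simp
      ring
    rw [h5] at h4
    exact le_of_mul_le_mul_left h4 hXr
  have hmod := hX1 X hX1' H U Q hU hQ hQX4 c hw hc hmu
  have hbx : 2 * (1 / 2 : ℝ) ^ (b + 3) = x := by
    rw [hx, pow_succ (1 / 2 : ℝ) (b + 2)]
    ring
  rw [hbx] at hmod
  have hmod' := abs_le.1 hmod
  have h5 := hr1 (1 - x) (by linarith) (by linarith [hmod'.1])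
  have h6 := hr2 (1 + x) (by linarith) (by linarith [hmod'.2])
  obtain ⟨T, hT⟩ : ∃ T : ℝ, T = U / Real.log X * ∑ n ∈ Ioc X (2 * X), wt Q c n := ⟨_, rfl⟩
  rw [← hT] at h5 h6 ⊢
  have hT0 : 0 ≤ T := by
    have h6 : 0 ≤ ∑ n ∈ Ioc X (2 * X), wt Q c n := sum_nonneg fun n _ => hw n
    rw [hT]
    positivity
  rw [hxb, abs_le]
  constructor
  · have h7 : (1 - 4 * x) * T ≤ ((1 - x / 8) ^ 2 * (1 - x) - x / 8) * T := by
      apply mul_le_mul_of_nonneg_right _ hT0
      nlinarith [sq_nonneg x, mul_nonneg hx0.le (sq_nonneg x)]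
    linarith
  · have h7 : ((1 + x / 8) ^ 2 * (1 + x) + x / 8) * T ≤ (1 + 4 * x) * T := by
      apply mul_le_mul_of_nonneg_right _ hT0
      nlinarith [sq_nonneg x, mul_nonneg hx0.le (sq_nonneg x), mul_nonneg hx0.le (sub_nonneg.2 hx1)]
    linarith


end Pool.Agent.X29.SW
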